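import Pool.Agent.Y51.ZG.Pf

/-!
# Project ZF (helper819), job ZF-COEF: the multilinear coefficient of a product of powers of linear
forms (after `H604R2/LEC/Deriv.lean`)
-/

set_option autoImplicit false

namespace Pool.Agent.Y51.ZG

open MvPolynomial Finset Pool.Agent.Helper929 Pool.Agent.Y819.ZF
open Pool.Agent.H604R2.LEC (oneE derivation_prod)

section

variable {R : Type} [CommRing R] {n : ℕ} (N : ℕ) (c y : Fin n → R) {E : Type} [Fintype E]
  (τ η : E → Fin n)

/-- The linear forms. -/
noncomputable def Rw (i : Fin n) : MvPolynomial E R :=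
  C (c i) + ∑ j, SM R τ η i j * C (y j)

theorem pderiv_SM (e : E) (i j : Fin n) :
    pderiv e (SM R τ η i j) =
      (if i = τ e ∧ j = η e then 1 else 0) - (if i = η e ∧ j = τ e then 1 else 0) := by
  classical
  rw [SM_apply, map_sum]
  have h : ∀ e' : E, pderiv e (((if τ e' = i ∧ η e' = j then X e' else 0) -
      (if τ e' = j ∧ η e' = i then X e' else 0)) : MvPolynomial E R) =
      if e' = e then ((if i = τ e ∧ j = η e then 1 else 0) -
        (if i = η e ∧ j = τ e then 1 else 0)) else 0 := by
    intro e'
    have a1 : (τ e' = i ∧ η e' = j) ↔ (i = τ e' ∧ j = η e') :=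
      ⟨fun h => ⟨h.1.symm, h.2.symm⟩, fun h => ⟨h.1.symm, h.2.symm⟩⟩
    have a2 : (τ e' = j ∧ η e' = i) ↔ (i = η e' ∧ j = τ e') :=
      ⟨fun h => ⟨h.2.symm, h.1.symm⟩, fun h => ⟨h.2.symm, h.1.symm⟩⟩
    simp only [a1, a2]
    by_cases h : e' = e
    · subst h
      rw [if_pos rfl, map_sub]
      congr 1
      · split_ifs <;> simp
      · split_ifs <;> simp
    · rw [if_neg h, map_sub]
      have h' : pderiv e (X e' : MvPolynomial E R) = 0 := pderiv_X_of_ne h
      split_ifs <;> simp [h']
  simp_rw [h]
  rw [Finset.sum_ite_eq' univ e, if_pos (Finset.mem_univ e)]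

theorem pderiv_Rw (e : E) (i : Fin n) : pderiv e (Rw c y τ η i) =
    (if i = τ e then C (y (η e)) else 0) - (if i = η e then C (y (τ e)) else 0) := by
  classical
  rw [Rw, map_add, pderiv_C, zero_add, map_sum]
  have h : ∀ j, pderiv e (SM R τ η i j * C (y j)) =
      (if i = τ e then (if j = η e then C (y j) else 0) else 0) -
        (if i = η e then (if j = τ e then C (y j) else 0) else 0) := by
    intro j
    rw [mul_comm, pderiv_C_mul, pderiv_SM, mul_sub, mul_ite, mul_ite, mul_one, mul_zero,
      ite_and, ite_and]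
  simp_rw [h]
  rw [Finset.sum_sub_distrib]
  by_cases h1 : i = τ e <;> by_cases h2 : i = η e <;> simp [h1, h2]

/-- factor of the image of a monomial -/
noncomputable def tf (i : Fin n) (a : ℕ) : MvPolynomial E R :=
  C ((N.descFactorial a : ℕ) : R) * Rw c y τ η i ^ (N - a)

theorem pderiv_tf (e : E) (i : Fin n) (a : ℕ) :
    pderiv e (tf N c y τ η i a) = tf N c y τ η i (a + 1) * pderiv e (Rw c y τ η i) := by
  rw [tf, tf, pderiv_C_mul, pderiv_pow, Nat.descFactorial_succ, Nat.cast_mul, C_mul,
    show N - (a + 1) = N - a - 1 by omega]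
  have : (((N - a : ℕ) : MvPolynomial E R)) = C ((N - a : ℕ) : R) := by simp
  rw [this]
  ring

/-- image of a monomial -/
noncomputable def Tm (a : Fin n →₀ ℕ) : MvPolynomial E R := ∏ i, tf N c y τ η i (a i)

/-- The linear map sending the monomial `z ^ a` to `∏ (N)_{a i} R_i ^ (N - a i)`. -/
noncomputable def Th : MvPolynomial (Fin n) R →ₗ[R] MvPolynomial E R :=
  (basisMonomials (Fin n) R).constr R (Tm N c y τ η)

theorem Th_monomial (a : Fin n →₀ ℕ) (r : R) :
    Th N c y τ η (monomial a r) = r • Tm N c y τ η a := by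
  have h1 : (monomial a r : MvPolynomial (Fin n) R) = r • basisMonomials (Fin n) R a := by
    rw [coe_basisMonomials, smul_monomial, smul_eq_mul, mul_one]
  rw [h1, map_smul, Th, Module.Basis.constr_basis]

theorem pderiv_Tm (e : E) (a : Fin n →₀ ℕ) : pderiv e (Tm N c y τ η a) =
    C (y (η e)) * Tm N c y τ η (a + Finsupp.single (τ e) 1) -
      C (y (τ e)) * Tm N c y τ η (a + Finsupp.single (η e) 1) := by
  classical
  have hD := derivation_prod ((pderiv e : Derivation R (MvPolynomial E R) _).restrictScalars ℤ)
    univ (fun i => tf N c y τ η i (a i))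
  have hD' : pderiv e (Tm N c y τ η a) = ∑ i, (∏ j ∈ univ.erase i, tf N c y τ η j (a j)) *
      pderiv e (tf N c y τ η i (a i)) := hD
  rw [hD']
  have h1 : ∀ u : Fin n, Tm N c y τ η (a + Finsupp.single u 1) =
      (∏ j ∈ univ.erase u, tf N c y τ η j (a j)) * tf N c y τ η u (a u + 1) := by
    intro u
    rw [Tm, ← Finset.prod_erase_mul _ _ (Finset.mem_univ u)]
    congr 1
    · apply Finset.prod_congr rfl
      intro j hj
      rw [Finsupp.add_apply, Finsupp.single_apply, if_neg (Finset.ne_of_mem_erase hj).symm,
        add_zero]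
    · rw [Finsupp.add_apply, Finsupp.single_apply, if_pos rfl]
  have h2 : ∀ i, (∏ j ∈ univ.erase i, tf N c y τ η j (a j)) * pderiv e (tf N c y τ η i (a i)) =
      (if i = τ e then C (y (η e)) * Tm N c y τ η (a + Finsupp.single i 1) else 0) -
      (if i = η e then C (y (τ e)) * Tm N c y τ η (a + Finsupp.single i 1) else 0) := by
    intro i
    rw [pderiv_tf, pderiv_Rw, h1]
    split_ifs <;> ring
  simp_rw [h2]
  rw [Finset.sum_sub_distrib, Finset.sum_ite_eq' , Finset.sum_ite_eq', if_pos (Finset.mem_univ _),
    if_pos (Finset.mem_univ _)]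

/-- The factor of an edge. -/
noncomputable def el (e : E) : MvPolynomial (Fin n) R :=
  C (y (η e)) * X (τ e) - C (y (τ e)) * X (η e)

theorem pderiv_Th (e : E) (g : MvPolynomial (Fin n) R) :
    pderiv e (Th N c y τ η g) = Th N c y τ η (el y τ η e * g) := by
  induction g using MvPolynomial.induction_on' with
  | add g h hg hh => rw [map_add, map_add, hg, hh, mul_add, map_add]
  | monomial a r =>
    rw [Th_monomial, Derivation.map_smul, pderiv_Tm]
    have h1 : el y τ η e * monomial a r = monomial (a + Finsupp.single (τ e) 1) (r * y (η e)) -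
        monomial (a + Finsupp.single (η e) 1) (r * y (τ e)) := by
      rw [el, sub_mul]
      congr 1
      · rw [X, C_mul_monomial, monomial_mul, add_comm a]
        congr 1
        ring
      · rw [X, C_mul_monomial, monomial_mul, add_comm a]
        congr 1
        ring
    rw [h1, map_sub, Th_monomial, Th_monomial, smul_sub, C_mul', C_mul', smul_smul, smul_smul]

open Classical in
/-- The indicator of a set of variables. -/
noncomputable def ind (s : Finset E) : E →₀ ℕ :=
  Finsupp.equivFunOnFinite.symm fun e => if e ∈ s then 1 else 0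

open Classical in
theorem ind_apply (s : Finset E) (e : E) : ind s e = if e ∈ s then 1 else 0 := rfl

open Classical in
theorem coeff_ind_insert {s : Finset E} {e : E} (he : e ∉ s) (f : MvPolynomial E R) :
    coeff (ind (insert e s)) f = coeff (ind s) (pderiv e f) := by
  rw [coeff_pderiv]
  have h1 : ind (insert e s) = ind s + Finsupp.single e 1 := by
    ext e'
    rw [Finsupp.add_apply, ind_apply, ind_apply, Finsupp.single_apply]
    by_cases h : e = e'
    · subst h
      simp [he]
    · have h' : ¬ e' = e := fun h2 => h h2.symm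
      simp [h, h']
  have h2 : ind s e = 0 := by
    rw [ind_apply, if_neg he]
  rw [h1, h2]
  simp

theorem coeff_ind_Th (s : Finset E) : ∀ g : MvPolynomial (Fin n) R,
    coeff (ind s) (Th N c y τ η g) = coeff 0 (Th N c y τ η ((∏ e ∈ s, el y τ η e) * g)) := by
  classical
  induction s using Finset.induction_on with
  | empty =>
    intro g
    rw [Finset.prod_empty, one_mul]
    congr 1
    ext e
    rw [ind_apply, if_neg (Finset.notMem_empty e)]
    rfl
  | insert e s he ih =>
    intro g
    have h := coeff_ind_insert he (Th N c y τ η g)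
    rw [pderiv_Th, ih] at h
    rw [Finset.prod_insert he, mul_comm (el y τ η e) (∏ e ∈ s, el y τ η e), mul_assoc]
    convert h using 2

theorem Th_one : Th N c y τ η 1 = ∏ i, Rw c y τ η i ^ N := by
  have h : (1 : MvPolynomial (Fin n) R) = monomial 0 1 := rfl
  rw [h, Th_monomial, one_smul, Tm]
  simp [tf]

theorem coeff_zero_Tm (a : Fin n →₀ ℕ) : coeff 0 (Tm N c y τ η a) =
    ∏ i, (((N.descFactorial (a i) : ℕ) : R) * c i ^ (N - a i)) := by
  rw [← constantCoeff_eq, Tm, map_prod]
  apply Finset.prod_congr rfl
  intro i _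
  rw [tf, map_mul, map_pow, constantCoeff_C]
  congr 2
  rw [Rw, map_add, constantCoeff_C, map_sum, Finset.sum_eq_zero, add_zero]
  intro j _
  rw [map_mul, SM_const, zero_mul]

end

theorem coef_main : S_COEF := by
  classical
  intro R _ n N c y
  refine ⟨(basisMonomials (Fin n) R).constr R
    (fun a : Fin n →₀ ℕ => ∏ i, (((N.descFactorial (a i) : ℕ) : R) * c i ^ (N - a i))), ?_, ?_⟩
  · intro a
    have h1 : (monomial a 1 : MvPolynomial (Fin n) R) = basisMonomials (Fin n) R a := by
      rw [coe_basisMonomials]
    rw [h1, Module.Basis.constr_basis]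
  · intro E _ τ η
    have hφ : ∀ g : MvPolynomial (Fin n) R, coeff 0 (Th N c y τ η g) =
        (basisMonomials (Fin n) R).constr R (fun a : Fin n →₀ ℕ =>
          ∏ i, (((N.descFactorial (a i) : ℕ) : R) * c i ^ (N - a i))) g := by
      intro g
      induction g using MvPolynomial.induction_on' with
      | add g h hg hh => rw [map_add, coeff_add, hg, hh, map_add]
      | monomial a r =>
        have h1 : (monomial a r : MvPolynomial (Fin n) R) = r • basisMonomials (Fin n) R a := by
          rw [coe_basisMonomials, smul_monomial, smul_eq_mul, mul_one]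
        rw [Th_monomial, coeff_smul, coeff_zero_Tm, h1, map_smul, Module.Basis.constr_basis]
    have h1 : oneE E = ind (univ : Finset E) := by
      ext e
      rw [ind_apply, if_pos (Finset.mem_univ e)]
      rfl
    have h2 := coeff_ind_Th N c y τ η univ 1
    rw [mul_one, Th_one, ← h1, hφ] at h2
    exact h2

end Pool.Agent.Y51.ZG
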