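import Pool.Agent.Y819.ZF.Stm

/-!
# Project ZF (helper819), job ZF-HOM: homogenisation of a graph polynomial
-/

set_option autoImplicit false

namespace Pool.Agent.Y51.ZG

open MvPolynomial Finset Pool.Agent.Y819.ZF

section

variable {R : Type} [CommRing R] {n : ℕ} {E : Type} [Fintype E]

/-- sign -/
def sg (R : Type) [CommRing R] (b : Bool) : R := if b then 1 else -1

/-- product of a constant, a sign and a variable over the edges -/
theorem prod_term (χ : E → Bool) (γ : E → R) (α : E → Fin n) :
    ∏ e, (C (sg R (χ e)) * (C (γ e) * X (α e)) : MvPolynomial (Fin n) R) =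
      monomial (∑ e, Finsupp.single (α e) 1) ((∏ e, sg R (χ e)) * ∏ e, γ e) := by
  rw [Finset.prod_mul_distrib, Finset.prod_mul_distrib, ← map_prod C, ← map_prod C]
  have h : ∏ e, (X (α e) : MvPolynomial (Fin n) R) = monomial (∑ e, Finsupp.single (α e) 1) 1 := by
    rw [monomial_sum_one]
    rfl
  rw [h, C_mul_monomial, C_mul_monomial, mul_one]

theorem exp_apply (α : E → Fin n) (i : Fin n) :
    (∑ e, Finsupp.single (α e) 1 : Fin n →₀ ℕ) i = ∑ e, (if α e = i then 1 else 0) := by
  rw [Finsupp.finsetSum_apply]
  exact Finset.sum_congr rfl fun e _ => Finsupp.single_apply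

theorem prod_fib (β : E → Fin n) (y : Fin n → R) :
    ∏ e, y (β e) = ∏ i, y i ^ (∑ e, (if β e = i then 1 else 0)) := by
  classical
  have h : ∀ i, y i ^ (∑ e, (if β e = i then 1 else 0)) = ∏ e, (if β e = i then y i else 1) := by
    intro i
    rw [← Finset.prod_pow_eq_pow_sum]
    exact Finset.prod_congr rfl fun e _ => by split_ifs <;> simp
  simp_rw [h]
  rw [Finset.prod_comm]
  refine Finset.prod_congr rfl fun e _ => ?_
  rw [Finset.prod_ite_eq univ (β e), if_pos (Finset.mem_univ _)]

end

theorem hom_main : S_HOM := by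
  classical
  intro R _ n d E _ τ η hreg y a
  -- expansion
  have key : ∀ (u v : E → R),
      ∏ e, (C (u e) * X (τ e) - C (v e) * X (η e) : MvPolynomial (Fin n) R) =
        ∑ χ : E → Bool, monomial (∑ e, Finsupp.single (if χ e then τ e else η e) 1)
          ((∏ e, sg R (χ e)) * ∏ e, (if χ e then u e else v e)) := by
    intro u v
    have h1 : ∀ e, (C (u e) * X (τ e) - C (v e) * X (η e) : MvPolynomial (Fin n) R) =
        ∑ b : Bool, (C (sg R b) * (C (if b then u e else v e) * X (if b then τ e else η e))) := by
      intro e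
      rw [Fintype.sum_bool]
      simp [sg]
      ring
    simp_rw [h1]
    rw [Finset.prod_univ_sum, Fintype.piFinset_univ]
    exact Finset.sum_congr rfl fun χ _ => prod_term χ _ _
  have h1 := key (fun e => y (η e)) (fun e => y (τ e))
  have h2 : PP R τ η = ∑ χ : E → Bool, monomial (∑ e, Finsupp.single (if χ e then τ e else η e) 1)
      ((∏ e, sg R (χ e)) * ∏ e, (if χ e then (1 : R) else 1)) := by
    rw [← key (fun _ => 1) (fun _ => 1)]
    unfold PP
    exact Finset.prod_congr rfl fun e _ => by simp
  rw [h1, h2, coeff_sum, coeff_sum, Finset.mul_sum]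
  refine Finset.sum_congr rfl fun χ _ => ?_
  rw [coeff_monomial, coeff_monomial]
  by_cases h : (∑ e, Finsupp.single (if χ e then τ e else η e) 1 : Fin n →₀ ℕ) = a
  · rw [if_pos h, if_pos h]
    have h3 : ∏ e, (if χ e then y (η e) else y (τ e)) = ∏ i, y i ^ (d - a i) := by
      have h4 : ∏ e, (if χ e then y (η e) else y (τ e)) =
          ∏ e, y (if χ e then η e else τ e) :=
        Finset.prod_congr rfl fun e _ => by split_ifs <;> rfl
      rw [h4, prod_fib]
      refine Finset.prod_congr rfl fun i _ => ?_
      congr 1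
      rw [← h, exp_apply, ← hreg i, Finset.card_filter, Finset.card_filter,
        ← Finset.sum_add_distrib]
      have h5 : (∑ e, ((if τ e = i then 1 else 0) + (if η e = i then 1 else 0)) : ℕ) =
          ∑ e, (if (if χ e then τ e else η e) = i then 1 else 0) +
            ∑ e, (if (if χ e then η e else τ e) = i then 1 else 0) := by
        rw [← Finset.sum_add_distrib]
        refine Finset.sum_congr rfl fun e _ => ?_
        cases χ e
        · simp [add_comm]
        · simp
      rw [h5, Nat.add_sub_cancel_left]
    rw [h3]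
    simp
    ring
  · rw [if_neg h, if_neg h, mul_zero]

end Pool.Agent.Y51.ZG
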