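import Pool.Agent.Y819.ZF.Stm

/-!
# Project ZF (helper819), job ZF-PF: determinant and Pfaffian of an oriented multigraph
-/

set_option autoImplicit false

namespace Pool.Agent.Y51.ZG

open MvPolynomial Finset Pool.Agent.Helper929 Pool.Agent.H604R2.LEC Pool.Agent.Y819.ZF

section pairs

variable {σ R : Type*} [CommRing R]

/-- `f` and `g` have degree at most `d`, and the same homogeneous part of degree `d`. -/
def HP (f g : MvPolynomial σ R) (d : ℕ) : Prop :=
  (∀ μ : σ →₀ ℕ, d < μ.degree → coeff μ f = 0) ∧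
  (∀ μ : σ →₀ ℕ, d < μ.degree → coeff μ g = 0) ∧
  ∀ μ : σ →₀ ℕ, μ.degree = d → coeff μ g = coeff μ f

theorem coeff_mul_zero {f g : MvPolynomial σ R} {d e : ℕ}
    (f1 : ∀ μ : σ →₀ ℕ, d < μ.degree → coeff μ f = 0)
    (g1 : ∀ μ : σ →₀ ℕ, e < μ.degree → coeff μ g = 0) (μ : σ →₀ ℕ) (hμ : d + e < μ.degree) :
    coeff μ (f * g) = 0 := by
  classical
  rw [coeff_mul]
  apply Finset.sum_eq_zero
  intro x hx
  rw [Finset.HasAntidiagonal.mem_antidiagonal] at hx
  have h1 : x.1.degree + x.2.degree = μ.degree := by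
    rw [← hx]
    exact (map_add Finsupp.degree x.1 x.2).symm
  by_cases hd : d < x.1.degree
  · rw [f1 _ hd, zero_mul]
  · rw [g1 _ (by omega), mul_zero]

theorem HP.mul {f f' g g' : MvPolynomial σ R} {d e : ℕ} (hf : HP f f' d) (hg : HP g g' e) :
    HP (f * g) (f' * g') (d + e) := by
  classical
  obtain ⟨f1, f2, f3⟩ := hf
  obtain ⟨g1, g2, g3⟩ := hg
  refine ⟨coeff_mul_zero f1 g1, coeff_mul_zero f2 g2, fun μ hμ => ?_⟩
  rw [coeff_mul, coeff_mul]
  apply Finset.sum_congr rfl
  intro x hx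
  rw [Finset.HasAntidiagonal.mem_antidiagonal] at hx
  have h1 : x.1.degree + x.2.degree = μ.degree := by
    rw [← hx]
    exact (map_add Finsupp.degree x.1 x.2).symm
  rcases lt_trichotomy d x.1.degree with hd | hd | hd
  · rw [f2 _ hd, f1 _ hd, zero_mul, zero_mul]
  · rw [f3 _ hd.symm, g3 _ (by omega)]
  · rw [g2 _ (by omega), g1 _ (by omega), mul_zero, mul_zero]

theorem HP.add {f f' g g' : MvPolynomial σ R} {d : ℕ} (hf : HP f f' d) (hg : HP g g' d) :
    HP (f + g) (f' + g') d := by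
  obtain ⟨f1, f2, f3⟩ := hf
  obtain ⟨g1, g2, g3⟩ := hg
  refine ⟨fun μ hμ => ?_, fun μ hμ => ?_, fun μ hμ => ?_⟩
  · rw [coeff_add, f1 _ hμ, g1 _ hμ, add_zero]
  · rw [coeff_add, f2 _ hμ, g2 _ hμ, add_zero]
  · rw [coeff_add, coeff_add, f3 _ hμ, g3 _ hμ]

theorem HP.zero (d : ℕ) : HP (0 : MvPolynomial σ R) 0 d := by
  refine ⟨fun μ hμ => ?_, fun μ hμ => ?_, fun μ hμ => ?_⟩ <;> simp

theorem HP.sum {ι : Type*} (s : Finset ι) (f g : ι → MvPolynomial σ R) (d : ℕ)
    (h : ∀ i ∈ s, HP (f i) (g i) d) : HP (∑ i ∈ s, f i) (∑ i ∈ s, g i) d := by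
  classical
  induction s using Finset.induction_on with
  | empty => simpa using HP.zero d
  | insert a s ha ih =>
    rw [Finset.sum_insert ha, Finset.sum_insert ha]
    exact (h a (Finset.mem_insert_self _ _)).add
      (ih fun i hi => h i (Finset.mem_insert_of_mem hi))

theorem HP.const (a : R) : HP (C a : MvPolynomial σ R) (C a) 0 := by
  classical
  have h0 : ∀ μ : σ →₀ ℕ, 0 < μ.degree → coeff μ (C a : MvPolynomial σ R) = 0 := by
    intro μ hμ
    rw [coeff_C, if_neg]
    intro h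
    rw [← h] at hμ
    simp at hμ
  exact ⟨h0, h0, fun μ _ => rfl⟩

theorem HP.one : HP (1 : MvPolynomial σ R) 1 0 := by
  rw [← C_1]
  exact HP.const 1

theorem HP.X (e : σ) : HP (X e : MvPolynomial σ R) (MvPolynomial.X e) 1 := by
  classical
  have h0 : ∀ μ : σ →₀ ℕ, 1 < μ.degree → coeff μ (MvPolynomial.X e : MvPolynomial σ R) = 0 := by
    intro μ hμ
    rw [coeff_X, if_neg]
    intro h
    rw [← h] at hμ
    simp at hμ
  exact ⟨h0, h0, fun μ _ => rfl⟩

theorem HP.addC {f g : MvPolynomial σ R} (h : HP f g 1) (a : R) : HP f (g + C a) 1 := by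
  classical
  obtain ⟨h1, h2, h3⟩ := h
  have h0 : ∀ μ : σ →₀ ℕ, 0 < μ.degree → coeff μ (C a : MvPolynomial σ R) = 0 := by
    intro μ hμ
    rw [coeff_C, if_neg]
    intro h
    rw [← h] at hμ
    simp at hμ
  refine ⟨h1, fun μ hμ => ?_, fun μ hμ => ?_⟩
  · rw [coeff_add, h2 μ hμ, h0 μ (by omega), add_zero]
  · rw [coeff_add, h3 μ hμ, h0 μ (by omega), add_zero]

theorem HP.pow {f g : MvPolynomial σ R} {d : ℕ} (hf : HP f g d) (k : ℕ) :
    HP (f ^ k) (g ^ k) (k * d) := by
  induction k with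
  | zero => simpa using HP.one
  | succ k ih =>
    rw [pow_succ, pow_succ, Nat.succ_mul]
    exact ih.mul hf

theorem HP.neg {f g : MvPolynomial σ R} {d : ℕ} (hf : HP f g d) : HP (-f) (-g) d := by
  obtain ⟨f1, f2, f3⟩ := hf
  refine ⟨fun μ hμ => ?_, fun μ hμ => ?_, fun μ hμ => ?_⟩
  · rw [coeff_neg, f1 _ hμ, neg_zero]
  · rw [coeff_neg, f2 _ hμ, neg_zero]
  · rw [coeff_neg, coeff_neg, f3 _ hμ]

theorem HP.pf : ∀ (n : ℕ) (A B : Matrix (Fin n) (Fin n) (MvPolynomial σ R)),
    (∀ i j, HP (A i j) (B i j) 1) → HP (Helper929.pf n A) (Helper929.pf n B) (n / 2)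
  | 0, A, B, _ => by simpa [Helper929.pf] using HP.one
  | 1, A, B, _ => by simpa [Helper929.pf] using HP.zero 0
  | (n + 2), A, B, hA => by
    rw [Helper929.pf, Helper929.pf]
    apply HP.sum
    intro j _
    have h1 : HP (((-1 : MvPolynomial σ R) ^ (j : ℕ))) ((-1 : MvPolynomial σ R) ^ (j : ℕ)) 0 := by
      have := (HP.one (σ := σ) (R := R)).neg.pow (j : ℕ)
      simpa using this
    have h2 : (n + 2) / 2 = 0 + 1 + n / 2 := by omega
    rw [h2]
    exact (h1.mul (hA _ _)).mul (HP.pf n _ _ fun a b => hA _ _)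

end pairs

theorem SM_apply {R : Type} [CommRing R] {n : ℕ} {E : Type} [Fintype E] (τ η : E → Fin n)
    (i j : Fin n) : SM R τ η i j = ∑ e, ((if τ e = i ∧ η e = j then X e else 0) -
    (if τ e = j ∧ η e = i then X e else 0)) := rfl

theorem SM_anti {R : Type} [CommRing R] {n : ℕ} {E : Type} [Fintype E] (τ η : E → Fin n)
    (i j : Fin n) : SM R τ η i j = - SM R τ η j i := by
  rw [SM_apply, SM_apply, ← Finset.sum_neg_distrib]
  exact Finset.sum_congr rfl fun e _ => by ring

theorem SM_diag {R : Type} [CommRing R] {n : ℕ} {E : Type} [Fintype E] (τ η : E → Fin n)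
    (i : Fin n) : SM R τ η i i = 0 := by
  rw [SM_apply]
  exact Finset.sum_eq_zero fun e _ => by rw [sub_self]

theorem SM_const {R : Type} [CommRing R] {n : ℕ} {E : Type} [Fintype E] (τ η : E → Fin n)
    (i j : Fin n) : constantCoeff (SM R τ η i j) = 0 := by
  rw [SM_apply, map_sum]
  refine Finset.sum_eq_zero fun e _ => ?_
  rw [map_sub]
  split_ifs <;> simp

theorem SM_HP {R : Type} [CommRing R] {n : ℕ} {E : Type} [Fintype E] (τ η : E → Fin n)
    (i j : Fin n) : HP (SM R τ η i j) (SM R τ η i j) 1 := by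
  rw [SM_apply]
  refine HP.sum _ _ _ 1 fun e _ => ?_
  rw [sub_eq_add_neg]
  refine HP.add ?_ (HP.neg ?_)
  · split_ifs
    · exact HP.X e
    · exact HP.zero 1
  · split_ifs
    · exact HP.X e
    · exact HP.zero 1

theorem oneE_apply {E : Type*} [Fintype E] (e : E) : oneE E e = 1 := rfl

theorem oneE_degree (E : Type*) [Fintype E] : (oneE E).degree = Fintype.card E := by
  rw [Finsupp.degree_eq_sum]
  simp [oneE_apply]

theorem main : S_PF := by
  classical
  intro p _ n E _ τ η A hA hA0 hE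
  have hp : 2 ≤ p := (Fact.out : p.Prime).two_le
  unfold DD cc
  obtain ⟨B, hB⟩ : ∃ B, B = SM (ZMod p) τ η + A.map C := ⟨_, rfl⟩
  have hBij : ∀ i j, B i j = SM (ZMod p) τ η i j + C (A i j) := by
    intro i j
    rw [hB, Matrix.add_apply, Matrix.map_apply]
  have hBa : ∀ i j, B i j = - B j i := by
    intro i j
    rw [hBij, hBij, SM_anti τ η i j, hA i j, map_neg]
    ring
  have hB0 : ∀ i, B i i = 0 := by
    intro i
    rw [hBij, SM_diag, hA0, map_zero, add_zero]
  rw [← hB]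
  have hdet : B.det = pf n B ^ 2 := by
    rw [eq_skew B hBa hB0, pf_sq_ring]
  rw [hdet, ← pow_mul]
  have h1 : 2 * (p - 1) = (p - 2) + p := by omega
  rw [h1, pow_add, ← expand_zmod, coeff_mul]
  rw [Finset.sum_eq_single (oneE E, 0)]
  · simp only
    have h2 : coeff (oneE E) (pf n B ^ (p - 2)) = coeff (oneE E) (pf n (SM (ZMod p) τ η) ^ (p - 2)) := by
      have h3 := ((HP.pf n (SM (ZMod p) τ η) B (fun i j => by
        rw [hBij]
        exact (SM_HP τ η i j).addC _)).pow (p - 2)).2.2 (oneE E) (by rw [oneE_degree, hE])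
      exact h3
    rw [h2]
    congr 1
    have h4 : coeff 0 (expand p (pf n B)) = constantCoeff (pf n B) := by
      have h5 := coeff_expand_zero (p := p) (show p ≠ 0 by omega) (pf n B)
      rw [constantCoeff_eq]
      exact h5
    rw [h4, pf_map]
    congr 1
    ext i j
    rw [Matrix.map_apply, hBij, map_add, SM_const, constantCoeff_C, zero_add]
  · rintro ⟨a, b⟩ hab hne
    rw [Finset.HasAntidiagonal.mem_antidiagonal] at hab
    simp only at hab ⊢
    have hb : b ≠ 0 := by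
      rintro rfl
      apply hne
      rw [add_zero] at hab
      rw [hab]
    obtain ⟨e, he⟩ : ∃ e, b e ≠ 0 := by
      by_contra hcon
      push Not at hcon
      exact hb (Finsupp.ext hcon)
    have hbe : b e = 1 := by
      have h2 := DFunLike.congr_fun hab e
      rw [Finsupp.add_apply, oneE_apply] at h2
      omega
    rw [coeff_expand_of_not_dvd (i := e), mul_zero]
    rw [hbe, Nat.dvd_one]
    omega
  · intro hcon
    exfalso
    apply hcon
    rw [Finset.HasAntidiagonal.mem_antidiagonal]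
    exact add_zero _

end Pool.Agent.Y51.ZG
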